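import Mathlib

/-!
# Project EN: nilpotent groups generated by left 3-Engel elements (helper325)

`gam N n` is the `n`-th term of the lower central series of the group `N` (with `gam N 0 = gam N 1 = N`),
`W N A` is the group of families of homomorphisms `gam N n → A` which vanish on `gam N (n + 1)` (extended
by zero to functions on `N`), and `D j u`, for `u ∈ gam N j`, is the endomorphism
`(D j u Φ) n v = Φ (n + j) [v, u]` of `W N A`.
-/

set_option autoImplicit false

open scoped commutatorElement

namespace Pool.Agent.H325.EN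

universe u

/-- the terms of the lower central series, `gam N 0 = gam N 1 = ⊤`, `gam N (n + 2) = [gam N (n + 1), N]` -/
def gam (N : Type u) [Group N] (n : ℕ) : Subgroup N :=
  Subgroup.lowerCentralSeries (⊤ : Subgroup N) (n - 1)

/-- `⟨x, y⟩` is nilpotent of class at most two -/
def Pair {G : Type u} [Group G] (x y : G) : Prop := Commute ⁅x, y⁆ x ∧ Commute ⁅x, y⁆ y

/-- all finitely generated subgroups of `H` are nilpotent -/
def LNil {G : Type u} [Group G] (H : Subgroup G) : Prop :=
  ∀ F : Set G, F.Finite → F ⊆ H → Group.IsNilpotent (Subgroup.closure F)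

/-- left 3-Engel elements (right normed convention of the problem file) -/
def L3 {G : Type u} [Group G] (a : G) : Prop :=
  ∀ x : G, (fun y : G => y⁻¹ * a⁻¹ * y * a)^[3] x = 1

/-- no elements of order two -/
def NoTwo (G : Type u) [Group G] : Prop := ∀ g : G, g ^ 2 = 1 → g = 1

/-! ## statements for the board -/

/-- N-series -/
def S_COM : Prop := ∀ (N : Type u) [Group N] (i j : ℕ) (x y : N), x ∈ gam N i → y ∈ gam N j →
  ⁅x, y⁆ ∈ gam N (i + j)

/-- left 3-Engel elements -/
def S_ENG : Prop := ∀ (G : Type u) [Group G] (a : G), L3 a → ∀ g : G, Pair a (g * a * g⁻¹)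

/-- Hirsch–Plotkin -/
def S_HP : Prop := ∀ (G : Type u) [Group G] (H K : Subgroup G), H.Normal → K.Normal →
  LNil H → LNil K → LNil (H ⊔ K)

/-- the elements of 2-power order of a nilpotent group form a subgroup -/
def S_TOR : Prop := ∀ (G : Type u) [Group G], Group.IsNilpotent G →
  ∃ T : Subgroup G, T.Normal ∧ ∀ g : G, g ∈ T ↔ ∃ n : ℕ, g ^ 2 ^ n = 1

/-- sandwich groups -/
def S_SG : Prop := ∀ m : ℕ, ∃ M : ℕ, ∀ (N : Type u) [Group N], Group.IsNilpotent N → NoTwo N →
  ∀ x : Fin m → N, Subgroup.closure (Set.range x) = ⊤ →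
    (∀ (i j : Fin m) (g : N), Commute ⁅g * x j * g⁻¹, x i⁆ (x i)) →
      Subgroup.lowerCentralSeries (⊤ : Subgroup N) M = ⊥

/-- the main theorem for groups without elements of order two -/
def S_MAIN : Prop := ∃ f : ℕ → ℕ, ∀ (d : ℕ) (G : Type u) [Group G] (g : Fin d → G),
  Group.IsNilpotent G → NoTwo G → Subgroup.closure (Set.range g) = ⊤ → (∀ i : Fin d, L3 (g i)) →
    Subgroup.lowerCentralSeries (⊤ : Subgroup G) (f d) = ⊥

end Pool.Agent.H325.EN
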