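import Pool.Agent.H325.EN.Defs

/-!
# Project EN: the operators `D j u` (helper325)
-/

set_option autoImplicit false

open scoped commutatorElement

namespace Pool.Agent.H325.EN

universe u v

section core

variable {N : Type u} [Group N] {A : Type v} [AddCommGroup A]

theorem gam_anti {i j : ℕ} (h : i ≤ j) : gam N j ≤ gam N i :=
  Subgroup.lowerCentralSeries_antitone _ (by omega)

theorem mem_gam_one (x : N) : x ∈ gam N 1 := Subgroup.mem_top x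

theorem mem_gam_zero (x : N) : x ∈ gam N 0 := Subgroup.mem_top x

instance gam_normal (n : ℕ) : (gam N n).Normal := by
  unfold gam; infer_instance

theorem gam_succ (n : ℕ) : gam N (n + 2) = ⁅gam N (n + 1), (⊤ : Subgroup N)⁆ := rfl

variable (N A) in
/-- families of homomorphisms `gam N n → A` vanishing on `gam N (n + 1)` -/
def W : AddSubgroup (ℕ → N → A) where
  carrier := {Φ | (∀ n, ∀ v ∈ gam N n, ∀ v' ∈ gam N n, Φ n (v * v') = Φ n v + Φ n v') ∧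
    (∀ n, ∀ v ∈ gam N (n + 1), Φ n v = 0) ∧ ∀ n, ∀ v, v ∉ gam N n → Φ n v = 0}
  zero_mem' := ⟨fun _ _ _ _ _ => by simp, fun _ _ _ => rfl, fun _ _ _ => rfl⟩
  add_mem' := by
    rintro Φ Ψ ⟨h1, h2, h3⟩ ⟨k1, k2, k3⟩
    refine ⟨fun n v hv v' hv' => ?_, fun n v hv => ?_, fun n v hv => ?_⟩
    · simp only [Pi.add_apply]
      rw [h1 n v hv v' hv', k1 n v hv v' hv']; abel
    · simp only [Pi.add_apply]
      rw [h2 n v hv, k2 n v hv, add_zero]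
    · simp only [Pi.add_apply]
      rw [h3 n v hv, k3 n v hv, add_zero]
  neg_mem' := by
    rintro Φ ⟨h1, h2, h3⟩
    refine ⟨fun n v hv v' hv' => ?_, fun n v hv => ?_, fun n v hv => ?_⟩
    · simp only [Pi.neg_apply]
      rw [h1 n v hv v' hv']; abel
    · simp only [Pi.neg_apply]
      rw [h2 n v hv, neg_zero]
    · simp only [Pi.neg_apply]
      rw [h3 n v hv, neg_zero]

variable {Φ : ℕ → N → A}

theorem W.mul (h : Φ ∈ W N A) {n : ℕ} {v v' : N} (hv : v ∈ gam N n) (hv' : v' ∈ gam N n) :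
    Φ n (v * v') = Φ n v + Φ n v' := h.1 n v hv v' hv'

theorem W.zero (h : Φ ∈ W N A) {n : ℕ} {v : N} (hv : v ∈ gam N (n + 1)) : Φ n v = 0 := h.2.1 n v hv

theorem W.off (h : Φ ∈ W N A) {n : ℕ} {v : N} (hv : v ∉ gam N n) : Φ n v = 0 := h.2.2 n v hv

theorem W.one (h : Φ ∈ W N A) (n : ℕ) : Φ n 1 = 0 := W.zero h (one_mem _)

theorem W.inv (h : Φ ∈ W N A) {n : ℕ} {v : N} (hv : v ∈ gam N n) : Φ n v⁻¹ = - Φ n v := by
  have h1 := W.mul h hv (inv_mem hv)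
  rw [mul_inv_cancel, W.one h] at h1
  exact (neg_eq_of_add_eq_zero_right h1.symm).symm

variable (hC : ∀ (i j : ℕ) (x y : N), x ∈ gam N i → y ∈ gam N j → ⁅x, y⁆ ∈ gam N (i + j))

include hC

theorem W.conj (h : Φ ∈ W N A) {n : ℕ} {v : N} (hv : v ∈ gam N n) (g : N) :
    Φ n (g * v * g⁻¹) = Φ n v := by
  have e : g * v * g⁻¹ = ⁅g, v⁆ * v := by rw [commutatorElement_def]; group
  have h1 : ⁅g, v⁆ ∈ gam N (n + 1) := by
    have := hC 1 n g v (mem_gam_one g) hv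
    rwa [add_comm] at this
  rw [e, W.mul h (gam_anti (Nat.le_succ n) h1) hv, W.zero h h1, zero_add]

theorem W.left (h : Φ ∈ W N A) {n j : ℕ} {v v' w : N} (hv : v ∈ gam N n) (hv' : v' ∈ gam N n)
    (hw : w ∈ gam N j) : Φ (n + j) ⁅v * v', w⁆ = Φ (n + j) ⁅v, w⁆ + Φ (n + j) ⁅v', w⁆ := by
  have e : ⁅v * v', w⁆ = (v * ⁅v', w⁆ * v⁻¹) * ⁅v, w⁆ := by
    simp only [commutatorElement_def]; group
  rw [e, W.mul h ((gam_normal _).conj_mem _ (hC _ _ _ _ hv' hw) _) (hC _ _ _ _ hv hw),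
    W.conj hC h (hC _ _ _ _ hv' hw), add_comm]

theorem W.swap (h : Φ ∈ W N A) {n j : ℕ} {v w : N} (hv : v ∈ gam N n) (hw : w ∈ gam N j) :
    Φ (n + j) ⁅w, v⁆ = - Φ (n + j) ⁅v, w⁆ := by
  rw [← commutatorElement_inv, W.inv h (hC _ _ _ _ hv hw)]

theorem W.right (h : Φ ∈ W N A) {n j : ℕ} {v w w' : N} (hv : v ∈ gam N n) (hw : w ∈ gam N j)
    (hw' : w' ∈ gam N j) : Φ (n + j) ⁅v, w * w'⁆ = Φ (n + j) ⁅v, w⁆ + Φ (n + j) ⁅v, w'⁆ := by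
  have h1 := W.left hC h hw hw' hv
  rw [add_comm j n] at h1
  rw [← neg_neg (Φ (n + j) ⁅v, w * w'⁆), ← W.swap hC h hv (mul_mem hw hw'), h1,
    W.swap hC h hv hw, W.swap hC h hv hw']
  abel

theorem W.left_inv (h : Φ ∈ W N A) {n j : ℕ} {v w : N} (hv : v ∈ gam N n)
    (hw : w ∈ gam N j) : Φ (n + j) ⁅v⁻¹, w⁆ = - Φ (n + j) ⁅v, w⁆ := by
  have h1 := W.left hC h hv (inv_mem hv) hw
  rw [mul_inv_cancel, commutatorElement_one_left, W.one h] at h1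
  exact (neg_eq_of_add_eq_zero_right h1.symm).symm

theorem W.right_inv (h : Φ ∈ W N A) {n j : ℕ} {v w : N} (hv : v ∈ gam N n)
    (hw : w ∈ gam N j) : Φ (n + j) ⁅v, w⁻¹⁆ = - Φ (n + j) ⁅v, w⁆ := by
  have h1 := W.right hC h hv hw (inv_mem hw)
  rw [mul_inv_cancel, commutatorElement_one_right, W.one h] at h1
  exact (neg_eq_of_add_eq_zero_right h1.symm).symm

open Classical in
omit hC in
/-- the function underlying `D j w Φ` -/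
noncomputable def Df (j : ℕ) (w : N) (Φ : ℕ → N → A) : ℕ → N → A := fun n v =>
  if v ∈ gam N n then Φ (n + j) ⁅v, w⁆ else 0

omit hC in
theorem Df_of {j : ℕ} {w : N} {n : ℕ} {v : N} (hv : v ∈ gam N n) :
    Df j w Φ n v = Φ (n + j) ⁅v, w⁆ := if_pos hv

theorem Df_mem (h : Φ ∈ W N A) {j : ℕ} {w : N} (hw : w ∈ gam N j) : Df j w Φ ∈ W N A := by
  refine ⟨fun n v hv v' hv' => ?_, fun n v hv => ?_, fun n v hv => ?_⟩
  · rw [Df_of hv, Df_of hv', Df_of (mul_mem hv hv'), W.left hC h hv hv' hw]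
  · rw [Df_of (gam_anti (Nat.le_succ n) hv)]
    refine W.zero h ?_
    have := hC _ _ _ _ hv hw
    rwa [Nat.add_right_comm] at this
  · exact if_neg hv

/-- the operator `D j w` -/
noncomputable def D (j : ℕ) (w : gam N j) : AddMonoid.End (W N A) where
  toFun Φ := ⟨Df j w.1 Φ.1, Df_mem hC Φ.2 w.2⟩
  map_zero' := by
    apply Subtype.ext
    funext n v
    by_cases hv : v ∈ gam N n
    · show Df j w.1 (0 : ℕ → N → A) n v = 0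
      rw [Df_of hv]; rfl
    · exact if_neg hv
  map_add' := by
    intro Φ Ψ
    apply Subtype.ext
    funext n v
    by_cases hv : v ∈ gam N n
    · show Df j w.1 (Φ.1 + Ψ.1) n v = Df j w.1 Φ.1 n v + Df j w.1 Ψ.1 n v
      rw [Df_of hv, Df_of hv, Df_of hv]; rfl
    · show Df j w.1 (Φ.1 + Ψ.1) n v = Df j w.1 Φ.1 n v + Df j w.1 Ψ.1 n v
      have e : ∀ Θ : ℕ → N → A, Df j w.1 Θ n v = 0 := fun Θ => if_neg hv
      rw [e, e, e, add_zero]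

theorem D_apply {j : ℕ} (w : gam N j) (Φ : W N A) {n : ℕ} {v : N} (hv : v ∈ gam N n) :
    (D hC j w Φ).1 n v = Φ.1 (n + j) ⁅v, w.1⁆ := Df_of hv

omit hC in
theorem end_ext {a b : AddMonoid.End (W N A)}
    (h : ∀ (Φ : W N A) (n : ℕ) (v : N), v ∈ gam N n → (a Φ).1 n v = (b Φ).1 n v) : a = b := by
  ext Φ n v
  by_cases hv : v ∈ gam N n
  · exact h Φ n v hv
  · rw [W.off (a Φ).2 hv, W.off (b Φ).2 hv]

/-- the three term identity -/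
theorem cyc (h : Φ ∈ W N A) {a b c : ℕ} {x y z : N} (hx : x ∈ gam N a) (hy : y ∈ gam N b)
    (hz : z ∈ gam N c) :
    Φ (a + b + c) ⁅⁅x, y⁆, z⁆ + Φ (a + b + c) ⁅⁅y, z⁆, x⁆ + Φ (a + b + c) ⁅⁅z, x⁆, y⁆ = 0 := by
  have hw : (y⁻¹ * ⁅⁅x⁻¹, y⁆⁻¹, z⁻¹⁆ * y) * ((z⁻¹ * ⁅⁅y⁻¹, z⁆⁻¹, x⁻¹⁆ * z) *
      (x⁻¹ * ⁅⁅z⁻¹, x⁆⁻¹, y⁻¹⁆ * x)) = 1 := by
    simp only [commutatorElement_def]; group
  -- the value of a factor
  have key : ∀ {a b c : ℕ} {x y z : N}, x ∈ gam N a → y ∈ gam N b → z ∈ gam N c →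
      (y⁻¹ * ⁅⁅x⁻¹, y⁆⁻¹, z⁻¹⁆ * y) ∈ gam N (a + b + c) ∧
      Φ (a + b + c) (y⁻¹ * ⁅⁅x⁻¹, y⁆⁻¹, z⁻¹⁆ * y) = - Φ (a + b + c) ⁅⁅x, y⁆, z⁆ := by
    intro a b c x y z hx hy hz
    have m1 : ⁅x⁻¹, y⁆ ∈ gam N (a + b) := hC _ _ _ _ (inv_mem hx) hy
    have m2 : ⁅⁅x⁻¹, y⁆⁻¹, z⁻¹⁆ ∈ gam N (a + b + c) := hC _ _ _ _ (inv_mem m1) (inv_mem hz)
    have e : y⁻¹ * ⁅⁅x⁻¹, y⁆⁻¹, z⁻¹⁆ * y = y⁻¹ * ⁅⁅x⁻¹, y⁆⁻¹, z⁻¹⁆ * y⁻¹⁻¹ := by rw [inv_inv]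
    refine ⟨?_, ?_⟩
    · rw [e]; exact (gam_normal _).conj_mem _ m2 _
    · rw [e, W.conj hC h m2, W.right_inv hC h (inv_mem m1) hz, W.left_inv hC h m1 hz, neg_neg]
      have h2 := W.left_inv hC (Df_mem hC h hz) hx hy
      rw [Df_of m1, Df_of (hC _ _ _ _ hx hy)] at h2
      exact h2
  obtain ⟨m1, v1⟩ := key hx hy hz
  obtain ⟨m2, v2⟩ := key hy hz hx
  obtain ⟨m3, v3⟩ := key hz hx hy
  have i2 : b + c + a = a + b + c := by omega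
  have i3 : c + a + b = a + b + c := by omega
  rw [i2] at m2 v2
  rw [i3] at m3 v3
  have h3 := congrArg (Φ (a + b + c)) hw
  rw [W.mul h m1 (mul_mem m2 m3), W.mul h m2 m3, v1, v2, v3, W.one h] at h3
  have h4 : -(Φ (a + b + c) ⁅⁅x, y⁆, z⁆ + Φ (a + b + c) ⁅⁅y, z⁆, x⁆ + Φ (a + b + c) ⁅⁅z, x⁆, y⁆) =
      0 := by
    rw [← h3]; abel
  exact neg_eq_zero.1 h4

theorem jac {j l : ℕ} (x : gam N j) (w : gam N l) :
    D (A := A) hC (j + l) ⟨⁅x.1, w.1⁆, hC _ _ _ _ x.2 w.2⟩ =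
      D hC j x * D hC l w - D hC l w * D hC j x := by
  apply end_ext
  intro Φ n v hv
  have a1 : ((D hC j x * D hC l w - D hC l w * D hC j x : AddMonoid.End (W N A)) Φ).1 n v =
      (D hC j x (D hC l w Φ)).1 n v - (D hC l w (D hC j x Φ)).1 n v := rfl
  rw [a1, D_apply hC _ _ hv, D_apply hC _ _ hv, D_apply hC _ _ hv,
    D_apply hC _ _ (hC _ _ _ _ hv x.2), D_apply hC _ _ (hC _ _ _ _ hv w.2)]
  have h := Φ.2
  have c1 := cyc hC h hv x.2 w.2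
  have i1 : n + l + j = n + j + l := by omega
  have i2 : n + (j + l) = n + j + l := by omega
  have s1 := W.swap hC h hv (hC _ _ _ _ x.2 w.2)
  have s2 := W.swap hC (Df_mem hC h x.2) hv w.2
  rw [Df_of (hC _ _ _ _ hv w.2)] at s2
  have m2 : ⁅w.1, v⁆ ∈ gam N (n + l) := by
    rw [add_comm]; exact hC _ _ _ _ w.2 hv
  rw [Df_of m2] at s2
  rw [i1] at s2 ⊢
  rw [i2] at s1 ⊢
  show Φ.1 (n + j + l) ⁅v, ⁅x.1, w.1⁆⁆ = Φ.1 (n + j + l) ⁅⁅v, x.1⁆, w.1⁆ - Φ.1 (n + j + l) ⁅⁅v, w.1⁆, x.1⁆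
  rw [s1, s2] at c1
  have : Φ.1 (n + j + l) ⁅v, ⁅x.1, w.1⁆⁆ - (Φ.1 (n + j + l) ⁅⁅v, x.1⁆, w.1⁆ -
      Φ.1 (n + j + l) ⁅⁅v, w.1⁆, x.1⁆) = 0 := by
    rw [← neg_eq_zero, ← c1]; abel
  exact sub_eq_zero.1 this

end core

end Pool.Agent.H325.EN
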