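import Pool.Agent.H325.K

/-!
# Algebras generated by `m` sandwiches are nilpotent of index bounded in terms of `m` (helper325)
-/

set_option autoImplicit false

namespace Pool.Agent.H325.EN

open Pool.Agent.Helper351.Kos Pool.Agent.H325

/-- words without factors `u u`, `c u c`, `u c u`, `u` regular -/
def P0 {A : Type*} [LinearOrder A] (w : List A) : Prop :=
  ∀ p q r : List A, w = p ++ q ++ r → ∀ (u : List A) (c : A), Reg u →
    ¬ (q = u ++ u ∨ q = [c] ++ u ++ [c] ∨ q = u ++ [c] ++ u)

theorem P0_short {A : Type*} [LinearOrder A] [Finite A] :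
    ∃ L : ℕ, ∀ w : List A, L ≤ w.length → ¬ P0 w := by
  by_contra hcon
  push Not at hcon
  obtain ⟨u, c, hu, h⟩ := word_lemma (P0 (A := A)) (by
    intro u v w h p q r e
    refine h (u ++ p) q (r ++ w) ?_
    rw [e]; simp only [List.append_assoc]) hcon
  rcases h with h | h | h
  · exact h [] _ [] (by simp) u c hu (Or.inl rfl)
  · exact h [] _ [] (by simp) u c hu (Or.inr (Or.inl rfl))
  · exact h [] _ [] (by simp) u c hu (Or.inr (Or.inr rfl))

/-- **Kostrikin–Zelmanov**, with a bound. -/
theorem sandwich_unif (m : ℕ) : ∃ L : ℕ, ∀ {E : Type*} [Ring E] (T : Set E),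
    (∀ a ∈ T, ∀ b ∈ T, a * b - b * a ∈ T) → (∀ a ∈ T, a * a = 0) →
    (∀ a ∈ T, ∀ b ∈ T, a * b * a = 0) → ∀ (s : Fin m → E), (∀ i, s i ∈ T) →
      ∀ w : List (Fin m), L ≤ w.length → (w.map s).prod = 0 := by
  obtain ⟨L, hL⟩ := P0_short (A := Fin m)
  refine ⟨L, ?_⟩
  intro E _ T hT h2 h3 s hs
  set a : List (Fin m) → E := fun w => (w.map s).prod with ha_def
  have ha : ∀ u v, a (u ++ v) = a u * a v := by
    intro u v
    simp [ha_def]
  have hsingle : ∀ c : Fin m, a [c] = s c := by
    intro c
    simp [ha_def]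
  set P : List (Fin m) → Prop := fun w => a w ∉ Lo a w with hP
  have hfac : ∀ u v w : List (Fin m), P (u ++ v ++ w) → P v := by
    intro u v w h hv
    apply h
    rw [ha, ha]
    exact Lo_mul_Le a ha _ _ (Le_mul_Lo a ha _ _ (self_mem_Le a u) hv) (self_mem_Le a w)
  have hreg : ∀ u : List (Fin m), Reg u → ∃ x ∈ T, x - a u ∈ Lo a u := by
    intro u hu
    induction hu with
    | single c =>
      refine ⟨s c, hs c, ?_⟩
      rw [hsingle, sub_self]
      exact Submodule.zero_mem _
    | node p q hp hq h ihp ihq =>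
      obtain ⟨x, hx1, hx2⟩ := ihp
      obtain ⟨y, hy1, hy2⟩ := ihq
      refine ⟨x * y - y * x, hT x hx1 y hy1, ?_⟩
      rw [ha]
      have hxLe : x ∈ Le a p := by
        have := Submodule.add_mem _ (Lo_le_Le a p hx2) (self_mem_Le a p)
        simpa using this
      have hyLe : y ∈ Le a q := by
        have := Submodule.add_mem _ (Lo_le_Le a q hy2) (self_mem_Le a q)
        simpa using this
      have e : x * y - y * x - a p * a q = (x - a p) * y + a p * (y - a q) - y * x := by
        noncomm_ring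
      rw [e]
      refine Submodule.sub_mem _ (Submodule.add_mem _ ?_ ?_) ?_
      · exact Lo_mul_Le a ha _ _ hx2 hyLe
      · exact Le_mul_Lo a ha _ _ (self_mem_Le a p) hy2
      · exact Le_le_Lo a (q ++ p) (p ++ q) (by simp [add_comm]) h
          (Le_mul_Le a ha _ _ hyLe hxLe)
  have hbad : ∀ (q u : List (Fin m)) (c : Fin m), Reg u →
      (q = u ++ u ∨ q = [c] ++ u ++ [c] ∨ q = u ++ [c] ++ u) → ¬ P q := by
    intro q u c hu hq hPq
    have hP3 : P (u ++ u) ∨ P ([c] ++ u ++ [c]) ∨ P (u ++ [c] ++ u) := by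
      rcases hq with h | h | h
      · left; rwa [← h]
      · right; left; rwa [← h]
      · right; right; rwa [← h]
    clear hPq hq
    obtain ⟨x, hx1, hx2⟩ := hreg u hu
    have hxLe : x ∈ Le a u := by
      have := Submodule.add_mem _ (Lo_le_Le a u hx2) (self_mem_Le a u)
      simpa using this
    have hcLe : s c ∈ Le a [c] := by
      rw [← hsingle]
      exact self_mem_Le a [c]
    rcases hP3 with h | h | h
    · apply h
      rw [ha]
      have e : a u * a u = x * x - (x - a u) * x - a u * (x - a u) := by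
        noncomm_ring
      rw [e, h2 x hx1, zero_sub]
      refine Submodule.sub_mem _ (Submodule.neg_mem _ ?_) ?_
      · exact Lo_mul_Le a ha _ _ hx2 hxLe
      · exact Le_mul_Lo a ha _ _ (self_mem_Le a u) hx2
    · apply h
      rw [ha, ha, hsingle]
      have e : s c * a u * s c = s c * x * s c - s c * (x - a u) * s c := by
        noncomm_ring
      rw [e, h3 (s c) (hs c) x hx1, zero_sub]
      refine Submodule.neg_mem _ ?_
      exact Lo_mul_Le a ha _ _ (Le_mul_Lo a ha _ _ hcLe hx2) hcLe
    · apply h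
      rw [ha, ha, hsingle]
      have e : a u * s c * a u = x * s c * x - (x - a u) * s c * x
          - a u * s c * (x - a u) := by
        noncomm_ring
      rw [e, h3 x hx1 (s c) (hs c), zero_sub]
      refine Submodule.sub_mem _ (Submodule.neg_mem _ ?_) ?_
      · exact Lo_mul_Le a ha _ _ (Lo_mul_Le a ha _ _ hx2 hcLe) hxLe
      · exact Le_mul_Lo a ha _ _ (Le_mul_Le a ha _ _ (self_mem_Le a u) hcLe) hx2
  have hN : ∀ w : List (Fin m), L ≤ w.length → ¬ P w := by
    intro w hw hPw
    apply hL w hw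
    rintro p q r rfl u c hu hq
    exact hbad q u c hu hq (hfac p q r hPw)
  intro w hw
  by_contra hne
  have hfin : {v : List (Fin m) | v.length = w.length ∧ a v ≠ 0}.Finite :=
    (List.finite_length_eq (Fin m) w.length).subset (fun v hv => hv.1)
  obtain ⟨v, hv, hmin⟩ := Set.exists_min_image _ id hfin ⟨w, rfl, hne⟩
  apply hv.2
  have hv3 : a v ∈ Lo a v := by
    have := hN v (by rw [hv.1]; exact hw)
    simpa [hP] using this
  have hbot : Lo a v = ⊥ := by
    rw [Lo, Submodule.span_eq_bot]
    rintro z ⟨v', h1, h2, rfl⟩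
    by_contra hz
    have := hmin v' ⟨h1.trans hv.1, hz⟩
    exact absurd h2 (not_lt.mpr this)
  rw [hbot] at hv3
  simpa using hv3

end Pool.Agent.H325.EN
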