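import Pool.Agent.H325.EN.Sand

/-!
# Project EN: nilpotent sandwich groups without elements of order two (helper325)
-/

set_option autoImplicit false

open scoped commutatorElement

namespace Pool.Agent.H325.EN

universe u v

section kill

variable {N : Type u} [Group N] {A : Type v} [AddCommGroup A]
variable (hC : ∀ (i j : ℕ) (x y : N), x ∈ gam N i → y ∈ gam N j → ⁅x, y⁆ ∈ gam N (i + j))

include hC

theorem kill {m : ℕ} {x : Fin m → N} (hgen : Subgroup.closure (Set.range x) = ⊤) (L : ℕ) :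
    ∀ Φ : W N A, (∀ w : List (Fin m), w.length = L →
      (w.map fun i => D (A := A) hC 1 ⟨x i, mem_gam_one _⟩).prod Φ = 0) →
        ∀ n, ∀ v ∈ gam N (n + 1 + L), Φ.1 (n + 1 + L) v = 0 := by
  induction L with
  | zero =>
    intro Φ h n v _
    have h1 := h [] rfl
    have h2 : Φ = 0 := h1
    rw [h2]; rfl
  | succ L ih =>
    intro Φ h n v hv
    have e : n + 1 + (L + 1) = (n + L) + 2 := by omega
    rw [e] at hv ⊢
    refine fill hC hgen Φ.2 (n + L) ?_ v hv
    intro w hw i
    have h1 := ih (D hC 1 ⟨x i, mem_gam_one _⟩ Φ) (by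
      intro w' hw'
      have h2 := h (w' ++ [i]) (by rw [List.length_append, hw']; rfl)
      rw [List.map_append, List.prod_append] at h2
      simpa using h2) n w (by
        have e2 : n + 1 + L = n + L + 1 := by omega
        rw [e2]; exact hw)
    have e2 : n + 1 + L = n + L + 1 := by omega
    rw [e2, D_apply hC _ _ hw] at h1
    exact h1

end kill

instance cenCG {N : Type u} [Group N] : CommGroup (Subgroup.center N) :=
  { (inferInstance : Group (Subgroup.center N)) with
    mul_comm := fun a b => Subtype.ext ((Subgroup.mem_center_iff.1 b.2 a.1)) }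

open Classical in
/-- the function `v ↦ v` in degree `n₀` -/
noncomputable def top_fun {N : Type u} [Group N] (n₀ : ℕ) (hc : gam N n₀ ≤ Subgroup.center N) :
    ℕ → N → Additive (Subgroup.center N) := fun n v =>
  if h : n = n₀ ∧ v ∈ gam N n₀ then Additive.ofMul ⟨v, hc h.2⟩ else 0

theorem top_fun_of {N : Type u} [Group N] {n₀ : ℕ} (hc : gam N n₀ ≤ Subgroup.center N) {v : N}
    (hv : v ∈ gam N n₀) : top_fun n₀ hc n₀ v = Additive.ofMul ⟨v, hc hv⟩ := dif_pos ⟨rfl, hv⟩

theorem top_fun_off {N : Type u} [Group N] {n₀ n : ℕ} (hc : gam N n₀ ≤ Subgroup.center N) {v : N}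
    (h : ¬ (n = n₀ ∧ v ∈ gam N n₀)) : top_fun n₀ hc n v = 0 := dif_neg h

theorem top_fun_mem {N : Type u} [Group N] {n₀ : ℕ} (hc : gam N n₀ ≤ Subgroup.center N)
    (hb : gam N (n₀ + 1) = ⊥) : top_fun n₀ hc ∈ W N (Additive (Subgroup.center N)) := by
  refine ⟨fun n v hv v' hv' => ?_, fun n v hv => ?_, fun n v hv => ?_⟩
  · by_cases hn : n = n₀
    · subst hn
      rw [top_fun_of hc hv, top_fun_of hc hv', top_fun_of hc (mul_mem hv hv')]
      rfl
    · rw [top_fun_off hc (fun h => hn h.1), top_fun_off hc (fun h => hn h.1),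
        top_fun_off hc (fun h => hn h.1), add_zero]
  · by_cases hn : n = n₀
    · subst hn
      rw [hb, Subgroup.mem_bot] at hv
      subst hv
      rw [top_fun_of hc (one_mem _)]
      rfl
    · exact top_fun_off hc (fun h => hn h.1)
  · apply top_fun_off hc
    rintro ⟨rfl, h⟩
    exact hv h

/-- **Sandwich groups.** -/
theorem sg (hCOM : S_COM.{u}) : S_SG.{u} := by
  intro m
  obtain ⟨L, hL⟩ := sandwich_unif m
  refine ⟨L, ?_⟩
  intro N _ hnil h2 x hgen hx
  classical
  have hC : ∀ (i j : ℕ) (x y : N), x ∈ gam N i → y ∈ gam N j → ⁅x, y⁆ ∈ gam N (i + j) :=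
    fun i j x y => hCOM N i j x y
  by_contra hne
  have hex : ∃ n, Subgroup.lowerCentralSeries (⊤ : Subgroup N) n = ⊥ :=
    Subgroup.nilpotent_iff_lowerCentralSeries.1 hnil
  set n1 := Nat.find hex with hn1
  have hb : Subgroup.lowerCentralSeries (⊤ : Subgroup N) n1 = ⊥ := Nat.find_spec hex
  have hLn : L < n1 := by
    by_contra hcon
    push Not at hcon
    apply hne
    rw [eq_bot_iff, ← hb]
    exact Subgroup.lowerCentralSeries_antitone _ hcon
  obtain ⟨c, hc⟩ : ∃ c, n1 = c + 1 := ⟨n1 - 1, by omega⟩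
  have hcne : Subgroup.lowerCentralSeries (⊤ : Subgroup N) c ≠ ⊥ :=
    Nat.find_min hex (m := c) (by omega)
  have hb1 : gam N (c + 1 + 1) = ⊥ := by
    show Subgroup.lowerCentralSeries (⊤ : Subgroup N) (c + 1) = ⊥
    rw [← hc]; exact hb
  have hcen : gam N (c + 1) ≤ Subgroup.center N := by
    intro v hv
    rw [Subgroup.mem_center_iff]
    intro g
    have h1 : ⁅v, g⁆ ∈ gam N (c + 1 + 1) := hC _ _ _ _ hv (mem_gam_one g)
    rw [hb1, Subgroup.mem_bot, commutatorElement_eq_one_iff_mul_comm] at h1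
    exact h1.symm
  have hA : ∀ a : Additive (Subgroup.center N), a + a = 0 → a = 0 := by
    intro a ha
    have h1 : (Additive.toMul a) * (Additive.toMul a) = 1 := ha
    have h3 : ((Additive.toMul a : Subgroup.center N) : N) ^ 2 = 1 := by
      rw [pow_two]
      exact congrArg Subtype.val h1
    have h4 := h2 _ h3
    have h5 : Additive.toMul a = 1 := Subtype.ext h4
    exact h5
  set A := Additive (Subgroup.center N) with hAdef
  -- the ring
  set U : Set (AddMonoid.End (W N A)) := {t | ∃ (j : ℕ) (w : gam N j), t = D (A := A) hC j w} with hU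
  have hUc : ∀ a ∈ U, ∀ b ∈ U, a * b - b * a ∈ U := by
    rintro _ ⟨j, w, rfl⟩ _ ⟨l, z, rfl⟩
    exact ⟨j + l, _, (jac hC w z).symm⟩
  have hword := hL (E := AddMonoid.End (W N A)) _ (ring_sand U hUc) (fun a ha => ha.2.1)
    (fun a ha b hb => ha.2.2 b hb.1) (fun i => D (A := A) hC 1 ⟨x i, mem_gam_one _⟩) (by
      intro i
      have hy : ∀ (j : Fin m) (g : N), Commute ⁅g * x j * g⁻¹, x i⁆ (x i) := fun j g => hx i j g
      refine ⟨⟨1, _, rfl⟩, D_sq hC hgen hy, ?_⟩
      rintro _ ⟨j, w, rfl⟩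
      exact D_sand hC hA hgen hy w)
  have hΦ := top_fun_mem hcen hb1
  have hz := kill hC hgen L ⟨top_fun (c + 1) hcen, hΦ⟩ (by
    intro w hw
    rw [hword w hw.ge]
    rfl) (c - L)
  have e : c - L + 1 + L = c + 1 := by omega
  rw [e] at hz
  apply hcne
  rw [eq_bot_iff]
  intro v hv
  have h6 := hz v hv
  change top_fun (c + 1) hcen (c + 1) v = 0 at h6
  rw [top_fun_of hcen hv] at h6
  have h7 : (⟨v, hcen hv⟩ : Subgroup.center N) = 1 := h6
  rw [Subgroup.mem_bot]
  exact congrArg Subtype.val h7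

end Pool.Agent.H325.EN
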