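import Pool.Agent.H325.EN.Core
import Pool.Agent.H325.EN.Ring

/-!
# Project EN: the operators of the generators are sandwiches (helper325)
-/

set_option autoImplicit false

open scoped commutatorElement

namespace Pool.Agent.H325.EN

universe u v

theorem ring5 {E : Type v} [Ring E] (U Y : E) : (U * Y - Y * U) * Y - Y * (U * Y - Y * U) =
    U * (Y * Y) + (Y * Y) * U - (Y * U * Y + Y * U * Y) := by noncomm_ring

section sand

variable {N : Type u} [Group N] {A : Type v} [AddCommGroup A] {Φ : ℕ → N → A}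

/-- the kernel of `Φ n` -/
def Kr (h : Φ ∈ W N A) (n : ℕ) : Subgroup N where
  carrier := {v | v ∈ gam N n ∧ Φ n v = 0}
  one_mem' := ⟨one_mem _, W.one h n⟩
  mul_mem' := by
    rintro a b ⟨ha, ha'⟩ ⟨hb, hb'⟩
    exact ⟨mul_mem ha hb, by rw [W.mul h ha hb, ha', hb', add_zero]⟩
  inv_mem' := by
    rintro a ⟨ha, ha'⟩
    exact ⟨inv_mem ha, by rw [W.inv h ha, ha', neg_zero]⟩

variable (hC : ∀ (i j : ℕ) (x y : N), x ∈ gam N i → y ∈ gam N j → ⁅x, y⁆ ∈ gam N (i + j))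

include hC

theorem fill {m : ℕ} {x : Fin m → N} (hgen : Subgroup.closure (Set.range x) = ⊤)
    (h : Φ ∈ W N A) (n : ℕ) (hw : ∀ w ∈ gam N (n + 1), ∀ i, Φ (n + 2) ⁅w, x i⁆ = 0) :
    ∀ v ∈ gam N (n + 2), Φ (n + 2) v = 0 := by
  have key : gam N (n + 2) ≤ Kr h (n + 2) := by
    rw [gam_succ, Subgroup.commutator_le]
    intro w hw' y hy
    refine ⟨hC (n + 1) 1 w y hw' (mem_gam_one y), ?_⟩
    have hy' : y ∈ Subgroup.closure (Set.range x) := hgen ▸ hy
    induction hy' using Subgroup.closure_induction with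
    | mem y hy' =>
      obtain ⟨i, rfl⟩ := hy'
      exact hw w hw' i
    | one => rw [commutatorElement_one_right, W.one h]
    | mul a b ha hb iha ihb =>
      have := W.right hC h (n := n + 1) (j := 1) hw' (mem_gam_one a) (mem_gam_one b)
      rw [this, iha (Subgroup.mem_top a), ihb (Subgroup.mem_top b), add_zero]
    | inv a ha iha =>
      have := W.right_inv hC h (n := n + 1) (j := 1) hw' (mem_gam_one a)
      rw [this, iha (Subgroup.mem_top a), neg_zero]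
  intro v hv
  exact (key hv).2

theorem sq_zero {m : ℕ} {x : Fin m → N} (hgen : Subgroup.closure (Set.range x) = ⊤) {y : N}
    (hy : ∀ (j : Fin m) (g : N), Commute ⁅g * x j * g⁻¹, y⁆ y) (h : Φ ∈ W N A) :
    ∀ n, ∀ v ∈ gam N n, Φ (n + 1 + 1) ⁅⁅v, y⁆, y⁆ = 0 := by
  have y1 := mem_gam_one y
  have hΨ : Df 1 y (Df 1 y Φ) ∈ W N A := Df_mem hC (Df_mem hC h y1) y1
  have e : ∀ n, ∀ v ∈ gam N n, Df 1 y (Df 1 y Φ) n v = Φ (n + 1 + 1) ⁅⁅v, y⁆, y⁆ := by
    intro n v hv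
    rw [Df_of hv, Df_of (hC _ _ _ _ hv y1)]
  intro n v hv
  rw [← e n v hv]
  rcases n with _ | _ | n
  · exact W.zero hΨ (mem_gam_one v)
  · have key : (⊤ : Subgroup N) ≤ Kr hΨ 1 := by
      rw [← hgen, Subgroup.closure_le]
      rintro _ ⟨j, rfl⟩
      refine ⟨mem_gam_one _, ?_⟩
      rw [e 1 _ (mem_gam_one _)]
      have h1 := hy j 1
      rw [one_mul, inv_one, mul_one] at h1
      rw [commutatorElement_eq_one_iff_commute.2 h1, W.one h]
    exact (key (Subgroup.mem_top v)).2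
  · refine fill hC hgen hΨ n ?_ v hv
    intro w hw j
    set z := x j with hz
    set d := ⁅w, z⁆ with hd
    have md : d ∈ gam N (n + 2) := hC (n + 1) 1 w z hw (mem_gam_one z)
    show Df 1 y (Df 1 y Φ) (n + 2) d = 0
    rw [e (n + 2) d md]
    set p := ⁅z, y⁆ with hp
    have mp : p ∈ gam N (1 + 1) := hC 1 1 z y (mem_gam_one z) y1
    set q := ⁅d, y⁆ with hq
    have mq : q ∈ gam N (n + 2 + 1) := hC _ _ _ _ md y1
    set f := ⁅d, p⁆ with hf
    have mf : f ∈ gam N (n + 2 + (1 + 1)) := hC _ _ _ _ md mp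
    have c1 : ⁅p, y⁆ = 1 := by
      have h1 := hy j 1
      rw [one_mul, inv_one, mul_one] at h1
      exact commutatorElement_eq_one_iff_commute.2 h1
    have c2 : ⁅⁅w * z * w⁻¹, y⁆, y⁆ = 1 := commutatorElement_eq_one_iff_commute.2 (hy j w)
    have e1 : ⁅w * z * w⁻¹, y⁆ = f * p * q := by
      rw [hf, hp, hq, hd]
      simp only [commutatorElement_def]; group
    have e2 : ⁅f * p * q, y⁆ = (f * p) * ⁅q, y⁆ * (f * p)⁻¹ * (f * ⁅p, y⁆ * f⁻¹) * ⁅f, y⁆ := by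
      simp only [commutatorElement_def]; group
    rw [e1, e2, c1, mul_one, mul_inv_cancel, mul_one] at c2
    have mr : ⁅q, y⁆ ∈ gam N (n + 2 + 1 + 1) := hC _ _ _ _ mq y1
    have ms : ⁅f, y⁆ ∈ gam N (n + 2 + 1 + 1 + 1) := by
      have := hC _ _ _ _ mf y1
      exact this
    have h3 := congrArg (Φ (n + 2 + 1 + 1)) c2
    rw [W.mul h ((gam_normal _).conj_mem _ mr _) (gam_anti (Nat.le_succ _) ms), W.conj hC h mr,
      W.zero h ms, add_zero, W.one h] at h3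
    exact h3

theorem D_sq {m : ℕ} {x : Fin m → N} (hgen : Subgroup.closure (Set.range x) = ⊤) {y : N}
    (hy : ∀ (j : Fin m) (g : N), Commute ⁅g * x j * g⁻¹, y⁆ y) :
    D (A := A) hC 1 ⟨y, mem_gam_one y⟩ * D hC 1 ⟨y, mem_gam_one y⟩ = 0 := by
  apply end_ext
  intro Φ n v hv
  show (D hC 1 ⟨y, mem_gam_one y⟩ (D hC 1 ⟨y, mem_gam_one y⟩ Φ)).1 n v = 0
  rw [D_apply hC _ _ hv, D_apply hC _ _ (hC _ _ _ _ hv (mem_gam_one y))]
  exact sq_zero hC hgen hy Φ.2 n v hv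

theorem D_sand (hA : ∀ a : A, a + a = 0 → a = 0) {m : ℕ} {x : Fin m → N}
    (hgen : Subgroup.closure (Set.range x) = ⊤) {y : N}
    (hy : ∀ (j : Fin m) (g : N), Commute ⁅g * x j * g⁻¹, y⁆ y) {j : ℕ} (w : gam N j) :
    D (A := A) hC 1 ⟨y, mem_gam_one y⟩ * D hC j w * D hC 1 ⟨y, mem_gam_one y⟩ = 0 := by
  have y1 := mem_gam_one y
  set Y := D (A := A) hC 1 ⟨y, mem_gam_one y⟩ with hY
  set U := D (A := A) hC j w with hU
  have hYY : Y * Y = 0 := D_sq hC hgen hy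
  have j1 := jac (A := A) hC w ⟨y, y1⟩
  have j2 := jac (A := A) hC ⟨⁅w.1, y⁆, hC _ _ _ _ w.2 y1⟩ ⟨y, y1⟩
  rw [j1] at j2
  have hz : D (A := A) hC (j + 1 + 1) ⟨⁅⁅w.1, y⁆, y⁆, hC _ _ _ _ (hC _ _ _ _ w.2 y1) y1⟩ = 0 := by
    apply end_ext
    intro Φ n v hv
    rw [D_apply hC _ _ hv]
    show Φ.1 (n + (j + 1 + 1)) ⁅v, ⁅⁅w.1, y⁆, y⁆⁆ = 0
    have m3 : ⁅⁅w.1, y⁆, y⁆ ∈ gam N (j + 1 + 1) := hC _ _ _ _ (hC _ _ _ _ w.2 y1) y1
    have h1 := sq_zero hC hgen hy (Df_mem hC Φ.2 hv) j w.1 w.2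
    rw [Df_of m3] at h1
    have h2 := W.swap hC Φ.2 m3 hv
    rw [h1, neg_zero] at h2
    rw [add_comm]
    exact h2
  have e : (U * Y - Y * U) * Y - Y * (U * Y - Y * U) = 0 := by
    rw [← hz]; exact j2.symm
  rw [ring5, hYY, mul_zero, zero_mul, zero_add, zero_sub, neg_eq_zero] at e
  apply end_ext
  intro Φ n v hv
  have h3 := congrArg (fun t : AddMonoid.End (W N A) => (t Φ).1 n v) e
  exact hA _ h3

end sand

/-- closure of sandwiches under commutators -/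
theorem ring_sand {E : Type v} [Ring E] (U : Set E) (hU : ∀ a ∈ U, ∀ b ∈ U, a * b - b * a ∈ U) :
    ∀ a ∈ {t | t ∈ U ∧ t * t = 0 ∧ ∀ w ∈ U, t * w * t = 0},
      ∀ b ∈ {t | t ∈ U ∧ t * t = 0 ∧ ∀ w ∈ U, t * w * t = 0},
        a * b - b * a ∈ {t | t ∈ U ∧ t * t = 0 ∧ ∀ w ∈ U, t * w * t = 0} := by
  rintro X ⟨hX, hX2, hXU⟩ Y ⟨hY, hY2, hYU⟩
  have hXY := hXU Y hY
  have hYX := hYU X hX
  refine ⟨hU X hX Y hY, ?_, ?_⟩
  · have e : (X * Y - Y * X) * (X * Y - Y * X) = (X * Y * X) * Y - X * (Y * Y) * X -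
        Y * (X * X) * Y + (Y * X * Y) * X := by noncomm_ring
    rw [e, hXY, hYX, hX2, hY2]; simp
  · intro w hw
    have a1 := hXU _ (hU Y hY w hw)
    have a2 := hYU _ (hU X hX w hw)
    have b1 : X * Y * w * X = X * w * Y * X := by
      have : X * (Y * w - w * Y) * X = X * Y * w * X - X * w * Y * X := by noncomm_ring
      rw [this] at a1
      exact sub_eq_zero.1 a1
    have b2 : Y * X * w * Y = Y * w * X * Y := by
      have : Y * (X * w - w * X) * Y = Y * X * w * Y - Y * w * X * Y := by noncomm_ring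
      rw [this] at a2
      exact sub_eq_zero.1 a2
    have e : (X * Y - Y * X) * w * (X * Y - Y * X) = (X * Y * w * X) * Y - X * (Y * w * Y) * X -
        Y * (X * w * X) * Y + (Y * X * w * Y) * X := by noncomm_ring
    rw [e, b1, b2, hXU w hw, hYU w hw]
    have c1 : X * w * Y * X * Y = X * w * (Y * X * Y) := by noncomm_ring
    have c2 : Y * w * X * Y * X = Y * w * (X * Y * X) := by noncomm_ring
    rw [c1, c2, hYX, hXY]; simp

end Pool.Agent.H325.EN
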